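import Mathlib

/-!
# Weighted digraphs with large in- and out-weights and only light directed cycles

For every `ε > 0` there is a finite digraph with arc weights in `[0, 1]` such that every vertex has
weighted out-degree and weighted in-degree at least `1` and every directed cycle has total weight
less than `ε`.

Construction.  Let `D` be the rooted tree of depth `k` in which every vertex of depth less than `k`
has `B = k (k + 1)` children, with arcs of weight `1 / B` from a vertex to its children and arcs of
weight `1 / k` from each leaf to each of its `k` proper ancestors.  All out-weights are `1`.  A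
directed cycle runs from a vertex down to a leaf below it and back, so it has at most `k + 1` arcs,
exactly one of them starting at a leaf: its weight is at most `(k + 1) / B + 1 / k = 2 / k`.  The
disjoint union of the reverse of `D` and `D` together with an arc of weight `1` from every vertex of
the first copy to its twin in the second satisfies both conditions and has no other directed cycles.
-/

set_option autoImplicit false

namespace Pool.Agent.Results.MP_0959cd_co.SmallCycles

/-- `v 0, v 1, …, v (n - 1), v n = v 0` is a directed cycle of `G`: a closed directed walk through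
`n ≥ 2` distinct vertices. -/
def IsDirectedCycle {V : Type} (G : Digraph V) (n : ℕ) (v : ℕ → V) : Prop :=
  2 ≤ n ∧ v n = v 0 ∧ (∀ i < n, ∀ j < n, v i = v j → i = j) ∧ ∀ i < n, G.Adj (v i) (v (i + 1))

/-! ### The tree with back arcs -/

/-- The vertices of the tree: words of length at most `k` over an alphabet with `B` letters. -/
abbrev T (k B : ℕ) : Type := {l : List (Fin B) // l.length ≤ k}

variable {k B : ℕ}

/-- The arcs: to the children, and from the leaves to their proper ancestors. -/
def A (u v : T k B) : Prop :=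
  (u.1.length < k ∧ ∃ a, v.1 = u.1 ++ [a]) ∨ (u.1.length = k ∧ ∃ i < k, v.1 = u.1.take i)

/-- The weights of the arcs, which depend only on the initial vertex. -/
noncomputable def w (u : T k B) : ℝ := if u.1.length < k then 1 / B else 1 / k

theorem A_irrefl (u : T k B) : ¬ A u u := by
  rintro (⟨h1, a, h2⟩ | ⟨h1, i, hi, h2⟩)
  · have := congrArg List.length h2
    rw [List.length_append, List.length_singleton] at this
    omega
  · have := congrArg List.length h2
    rw [List.length_take] at this
    omega

theorem w_nonneg (u : T k B) : 0 ≤ w u := by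
  unfold w
  split_ifs <;> positivity

theorem w_le_one (u : T k B) : w u ≤ 1 := by
  unfold w
  split_ifs
  · rcases Nat.eq_zero_or_pos B with h | h
    · subst h; simp
    · rw [div_le_one (by exact_mod_cast h)]
      exact_mod_cast h
  · rcases Nat.eq_zero_or_pos k with h | h
    · subst h; simp
    · rw [div_le_one (by exact_mod_cast h)]
      exact_mod_cast h

/-- A sum of nonnegative terms is at least one, if the terms of an injective family are. -/
theorem one_le_sum {V ι : Type} [Fintype ι] (s : Finset V) (f : V → ℝ) (hf : ∀ v ∈ s, 0 ≤ f v)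
    (φ : ι → V) (hφ : Function.Injective φ) (hmem : ∀ i, φ i ∈ s) (h1 : 1 ≤ ∑ i, f (φ i)) :
    1 ≤ ∑ v ∈ s, f v := by
  classical
  have h2 : ∑ i, f (φ i) = ∑ v ∈ Finset.univ.image φ, f v :=
    (Finset.sum_image fun i _ j _ h => hφ h).symm
  rw [h2] at h1
  refine h1.trans (Finset.sum_le_sum_of_subset_of_nonneg ?_ fun v hv _ => hf v hv)
  intro v hv
  obtain ⟨i, _, rfl⟩ := Finset.mem_image.1 hv
  exact hmem i

/-- The out-neighbours of a vertex are at least `1 / w`. -/
theorem exists_nbrs (hk : 1 ≤ k) (hB : 1 ≤ B) (u : T k B) :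
    ∃ (m : ℕ) (φ : Fin m → T k B), Function.Injective φ ∧ (∀ i, A u (φ i)) ∧ (m : ℝ) * w u = 1 := by
  by_cases h : u.1.length < k
  · refine ⟨B, fun a => ⟨u.1 ++ [a], by
      rw [List.length_append, List.length_singleton]; omega⟩, ?_, fun a => Or.inl ⟨h, a, rfl⟩, ?_⟩
    · intro a b hab
      have h1 : u.1 ++ [a] = u.1 ++ [b] := congrArg Subtype.val hab
      have h2 := List.append_cancel_left h1
      exact List.head_eq_of_cons_eq h2
    · unfold w
      rw [if_pos h]
      have : (B : ℝ) ≠ 0 := by
        have : 0 < B := hB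
        positivity
      field_simp
  · have hl : u.1.length = k := le_antisymm u.2 (not_lt.1 h)
    refine ⟨k, fun i => ⟨u.1.take i, by rw [List.length_take]; omega⟩, ?_,
      fun i => Or.inr ⟨hl, i, i.2, rfl⟩, ?_⟩
    · intro i j hij
      have h1 : u.1.take i = u.1.take j := congrArg Subtype.val hij
      have h2 := congrArg List.length h1
      rw [List.length_take, List.length_take, hl, min_eq_left i.2.le, min_eq_left j.2.le] at h2
      exact Fin.ext h2
    · unfold w
      rw [if_neg h]
      have : (k : ℝ) ≠ 0 := by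
        have : 0 < k := hk
        positivity
      field_simp

/-- The weight of a directed cycle of the tree with back arcs. -/
theorem cycle_le {n : ℕ} [NeZero n] (c : ZMod n → T k B) (hc : Function.Injective c)
    (hadj : ∀ i, A (c i) (c (i + 1))) : ∑ i, w (c i) ≤ (k + 1) * (1 / B) + 1 / k := by
  classical
  obtain ⟨i₀, hmin⟩ := Finite.exists_min fun i => (c i).1.length
  set l := (c i₀).1.length with hl
  have hlk : l < k := by
    by_contra hcon
    rcases hadj i₀ with ⟨h1, -⟩ | ⟨-, i, hi, h2⟩
    · exact hcon h1
    · have h3 := hmin (i₀ + 1)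
      rw [h2, List.length_take] at h3
      omega
  -- the lengths increase until a leaf is reached
  have hlen : ∀ j : ℕ, j ≤ k - l → (c (i₀ + j)).1.length = l + j := by
    intro j
    induction j with
    | zero =>
      intro _
      rw [Nat.cast_zero, add_zero]
      exact hl.symm
    | succ j ih =>
      intro hj
      have h1 := ih (by omega)
      rcases hadj (i₀ + j) with ⟨-, a, h2⟩ | ⟨h2, -⟩
      · have h3 : i₀ + ((j + 1 : ℕ) : ZMod n) = i₀ + j + 1 := by
          push_cast
          ring
        rw [h3, h2, List.length_append, h1, List.length_singleton]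
        omega
      · omega
  have hpre : ∀ j : ℕ, j ≤ k - l → ∀ j' ≤ j, (c (i₀ + j')).1 <+: (c (i₀ + j)).1 := by
    intro j
    induction j with
    | zero =>
      intro _ j' hj'
      rw [Nat.le_zero.1 hj']
    | succ j ih =>
      intro hj j' hj'
      rcases Nat.lt_or_ge j j' with h | h
      · rw [show j' = j + 1 by omega]
      · have h3 : i₀ + ((j + 1 : ℕ) : ZMod n) = i₀ + j + 1 := by
          push_cast
          ring
        refine (ih (by omega) j' h).trans ?_
        rcases hadj (i₀ + j) with ⟨-, a, h2⟩ | ⟨h2, -⟩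
        · rw [h3, h2]
          exact List.prefix_append _ _
        · have := hlen j (by omega)
          omega
  -- the arc from the leaf
  have hn : n ≤ k - l + 1 := by
    have hleaf := hlen (k - l) le_rfl
    rcases hadj (i₀ + ((k - l : ℕ) : ZMod n)) with ⟨h1, -⟩ | ⟨h1, i, hi, h2⟩
    · omega
    · have h3 := hmin (i₀ + ((k - l : ℕ) : ZMod n) + 1)
      rw [h2, List.length_take, h1, min_eq_left hi.le] at h3
      have h4 : c (i₀ + ((k - l : ℕ) : ZMod n) + 1) = c (i₀ + ((i - l : ℕ) : ZMod n)) := by
        apply Subtype.ext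
        rw [h2]
        have h5 := List.prefix_iff_eq_take.1 (hpre (k - l) le_rfl (i - l) (by omega))
        rw [hlen (i - l) (by omega), show l + (i - l) = i by omega] at h5
        exact h5.symm
      have h5 := hc h4
      have h6 : (((k - l + 1 : ℕ)) : ZMod n) = ((i - l : ℕ) : ZMod n) := by
        have : i₀ + (((k - l + 1 : ℕ)) : ZMod n) = i₀ + ((i - l : ℕ) : ZMod n) := by
          rw [← h5]
          push_cast
          ring
        exact add_left_cancel this
      have h7 := (ZMod.natCast_eq_natCast_iff _ _ _).1 h6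
      have h8 : n ∣ (k - l + 1) - (i - l) := (Nat.modEq_iff_dvd' (by omega)).1 h7.symm
      have h9 := Nat.le_of_dvd (by omega) h8
      omega
  -- the bound
  have hterm : ∀ x : ZMod n, w (c x) ≤ 1 / B +
      if x = i₀ + ((k - l : ℕ) : ZMod n) then (1 / k : ℝ) else 0 := by
    intro x
    have hx : x = i₀ + (((x - i₀).val : ℕ) : ZMod n) := by
      rw [ZMod.natCast_zmod_val]
      ring
    have hv : (x - i₀).val < n := ZMod.val_lt _
    by_cases h : (x - i₀).val = k - l
    · rw [h] at hx
      rw [if_pos hx]
      unfold w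
      split_ifs
      · have : (0 : ℝ) ≤ 1 / k := by positivity
        linarith
      · have : (0 : ℝ) ≤ 1 / B := by positivity
        linarith
    · have h1 : (c x).1.length = l + (x - i₀).val := by
        conv_lhs => rw [hx]
        exact hlen _ (by omega)
      have h2 : (c x).1.length < k := by omega
      unfold w
      rw [if_pos h2]
      have : (0 : ℝ) ≤ if x = i₀ + ((k - l : ℕ) : ZMod n) then (1 / k : ℝ) else 0 := by
        split_ifs <;> positivity
      linarith
  refine (Finset.sum_le_sum fun x _ => hterm x).trans ?_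
  rw [Finset.sum_add_distrib, Finset.sum_ite_eq' Finset.univ, if_pos (Finset.mem_univ _),
    Finset.sum_const, Finset.card_univ, ZMod.card, nsmul_eq_mul]
  have h1 : (n : ℝ) ≤ k + 1 := by
    have : n ≤ k + 1 := by omega
    exact_mod_cast this
  have h2 : (0 : ℝ) ≤ 1 / B := by positivity
  nlinarith

/-! ### The digraph -/

/-- The arcs of the digraph: `false` is the reversed copy. -/
def Ad : Bool × T k B → Bool × T k B → Prop
  | (true, u), (true, v) => A u v
  | (false, u), (false, v) => A v u
  | (false, u), (true, v) => u = v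
  | (true, _), (false, _) => False

/-- The weights. -/
noncomputable def P : Bool × T k B → Bool × T k B → ℝ
  | (true, u), (true, _) => w u
  | (false, _), (false, v) => w v
  | (false, _), (true, _) => 1
  | (true, _), (false, _) => 0

theorem P_bounds (u v : Bool × T k B) : 0 ≤ P u v ∧ P u v ≤ 1 := by
  rcases u with ⟨_ | _, u⟩ <;> rcases v with ⟨_ | _, v⟩
  · exact ⟨w_nonneg v, w_le_one v⟩
  · exact ⟨zero_le_one, le_rfl⟩
  · exact ⟨le_rfl, zero_le_one⟩
  · exact ⟨w_nonneg u, w_le_one u⟩

/-- The weight of a directed cycle, indexed by `ZMod n`. -/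
theorem P_cycle {n : ℕ} [NeZero n] (c : ZMod n → Bool × T k B) (hc : Function.Injective c)
    (hadj : ∀ i, Ad (c i) (c (i + 1))) :
    ∑ i, P (c i) (c (i + 1)) ≤ (k + 1) * (1 / B) + 1 / k := by
  by_cases ht : ∃ i, (c i).1 = true
  · obtain ⟨i, hi⟩ := ht
    have hall : ∀ j : ℕ, (c (i + j)).1 = true := by
      intro j
      induction j with
      | zero => rw [Nat.cast_zero, add_zero]; exact hi
      | succ j ih =>
        have h1 := hadj (i + j)
        have h2 : i + ((j + 1 : ℕ) : ZMod n) = i + j + 1 := by
          push_cast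
          ring
        rw [h2]
        rcases hu : c (i + j) with ⟨b, u⟩
        rcases hv : c (i + j + 1) with ⟨b', v⟩
        rw [hu, hv] at h1
        rw [hu] at ih
        cases b'
        · exfalso
          have hb : b = true := ih
          subst hb
          exact h1
        · rfl
    have hall' : ∀ x, (c x).1 = true := by
      intro x
      have h := hall (x - i).val
      rw [ZMod.natCast_zmod_val, show i + (x - i) = x by ring] at h
      exact h
    have hcx : ∀ x, c x = (true, (c x).2) := fun x => Prod.ext (hall' x) rfl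
    have h1 := cycle_le (fun x => (c x).2) (fun x y hxy => hc (by
      rw [hcx x, hcx y]
      exact Prod.ext rfl hxy)) (fun x => by
        have h := hadj x
        rw [hcx x, hcx (x + 1)] at h
        exact h)
    refine le_trans (le_of_eq (Finset.sum_congr rfl fun x _ => ?_)) h1
    rw [hcx x, hcx (x + 1)]
    rfl
  · have hcx : ∀ x, c x = (false, (c x).2) := fun x => Prod.ext (by
      rcases hb : (c x).1 with _ | _
      · rfl
      · exact absurd ⟨x, hb⟩ ht) rfl
    have h1 := cycle_le (fun x => (c (-x)).2) (fun x y hxy => neg_injective (hc (by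
      rw [hcx (-x), hcx (-y)]
      exact Prod.ext rfl hxy))) (fun x => by
        have h := hadj (-(x + 1))
        rw [show -(x + 1) + 1 = -x by ring, hcx (-(x + 1)), hcx (-x)] at h
        exact h)
    refine le_trans (le_of_eq ?_) h1
    rw [← Equiv.sum_comp ((Equiv.addRight (1 : ZMod n)).trans (Equiv.neg _))
      (fun x => P (c x) (c (x + 1)))]
    refine Finset.sum_congr rfl fun x _ => ?_
    show P (c (-(x + 1))) (c (-(x + 1) + 1)) = w (c (-x)).2
    rw [show -(x + 1) + 1 = -x by ring, hcx (-(x + 1)), hcx (-x)]
    rfl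

/-- The weight of a directed cycle. -/
theorem P_cycle' (n : ℕ) (v : ℕ → Bool × T k B)
    (hv : IsDirectedCycle (⟨Ad⟩ : Digraph (Bool × T k B)) n v) :
    ∑ i ∈ Finset.range n, P (v i) (v (i + 1)) ≤ (k + 1) * (1 / B) + 1 / k := by
  obtain ⟨hn, hcl, hinj, hadj⟩ := hv
  have : NeZero n := ⟨by omega⟩
  have : Fact (1 < n) := ⟨by omega⟩
  have hsucc : ∀ x : ZMod n, v (x + 1).val = v (x.val + 1) := by
    intro x
    have hx := ZMod.val_lt x
    rw [ZMod.val_add, ZMod.val_one]
    rcases Nat.lt_or_ge (x.val + 1) n with h | h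
    · rw [Nat.mod_eq_of_lt h]
    · have h1 : x.val + 1 = n := by omega
      rw [h1, Nat.mod_self, hcl]
  have h1 := P_cycle (fun x : ZMod n => v x.val)
    (fun x y hxy => ZMod.val_injective n (hinj _ (ZMod.val_lt x) _ (ZMod.val_lt y) hxy))
    (fun x => by
      show Ad (v x.val) (v (x + 1).val)
      rw [hsucc]
      exact hadj _ (ZMod.val_lt x))
  refine le_trans (le_of_eq ?_) h1
  have h2 : ∑ x : ZMod n, P (v x.val) (v (x + 1).val) = ∑ x : ZMod n, P (v x.val) (v (x.val + 1)) :=
    Finset.sum_congr rfl fun x _ => by rw [hsucc]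
  show _ = ∑ x : ZMod n, P (v x.val) (v (x + 1).val)
  rw [h2]
  refine Finset.sum_bij (fun i _ => (i : ZMod n)) (fun i _ => Finset.mem_univ _) ?_ ?_ ?_
  · intro i hi j hj hij
    have h3 := congrArg ZMod.val hij
    rwa [ZMod.val_cast_of_lt (Finset.mem_range.1 hi),
      ZMod.val_cast_of_lt (Finset.mem_range.1 hj)] at h3
  · intro x _
    exact ⟨x.val, Finset.mem_range.2 (ZMod.val_lt x), ZMod.natCast_zmod_val x⟩
  · intro i hi
    rw [ZMod.val_cast_of_lt (Finset.mem_range.1 hi)]

open Classical in
/-- For every `ε > 0` there is a finite digraph (no loops) with arc weights `p` in `[0, 1]` such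
that every vertex has weighted out-degree and weighted in-degree at least `1` and every directed
cycle has total weight less than `ε`. -/
theorem result (ε : ℝ) (hε : 0 < ε) :
    ∃ (V : Type) (_ : Fintype V) (_ : Nonempty V) (G : Digraph V) (p : V → V → ℝ),
      (∀ u, ¬ G.Adj u u) ∧
      (∀ u v, G.Adj u v → 0 ≤ p u v ∧ p u v ≤ 1) ∧
      (∀ u, 1 ≤ ∑ v ∈ Finset.univ.filter (fun v => G.Adj u v), p u v) ∧
      (∀ u, 1 ≤ ∑ v ∈ Finset.univ.filter (fun v => G.Adj v u), p v u) ∧
      ∀ (n : ℕ) (v : ℕ → V), IsDirectedCycle G n v →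
        ∑ i ∈ Finset.range n, p (v i) (v (i + 1)) < ε := by
  obtain ⟨m, hm⟩ := exists_nat_gt (2 / ε)
  let k : ℕ := m + 1
  let B : ℕ := k * (k + 1)
  have hk : 1 ≤ k := by omega
  have hB : 1 ≤ B := Nat.mul_pos hk (by omega)
  have hfin : Finite (T k B) := (List.finite_length_le (Fin B) k).to_subtype
  have hT : Fintype (T k B) := Fintype.ofFinite _
  refine ⟨Bool × T k B, inferInstance, ⟨(true, ⟨[], Nat.zero_le _⟩)⟩, ⟨Ad⟩, P, ?_, ?_, ?_, ?_, ?_⟩
  · rintro ⟨_ | _, u⟩ h
    · exact A_irrefl u h
    · exact A_irrefl u h
  · intro u v _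
    exact P_bounds u v
  · rintro ⟨_ | _, u⟩
    · refine one_le_sum (ι := Unit) _ _ (fun v _ => (P_bounds _ v).1) (fun _ => (true, u))
        (fun _ _ _ => rfl) (fun _ => Finset.mem_filter.2 ⟨Finset.mem_univ _, rfl⟩) ?_
      simp [P]
    · obtain ⟨r, φ, h1, h2, h3⟩ := exists_nbrs hk hB u
      refine one_le_sum _ _ (fun v _ => (P_bounds _ v).1) (fun i => (true, φ i))
        (fun i j hij => h1 (congrArg Prod.snd hij))
        (fun i => Finset.mem_filter.2 ⟨Finset.mem_univ _, h2 i⟩) ?_
      have : ∑ i, P (true, u) (true, φ i) = r * w u := by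
        show ∑ _i : Fin r, w u = _
        rw [Finset.sum_const, Finset.card_univ, Fintype.card_fin, nsmul_eq_mul]
      rw [this, h3]
  · rintro ⟨_ | _, u⟩
    · obtain ⟨r, φ, h1, h2, h3⟩ := exists_nbrs hk hB u
      refine one_le_sum _ (fun v => P v (false, u)) (fun v _ => (P_bounds v _).1)
        (fun i => (false, φ i)) (fun i j hij => h1 (congrArg Prod.snd hij))
        (fun i => Finset.mem_filter.2 ⟨Finset.mem_univ _, h2 i⟩) ?_
      have : ∑ i, P (false, φ i) (false, u) = r * w u := by
        show ∑ _i : Fin r, w u = _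
        rw [Finset.sum_const, Finset.card_univ, Fintype.card_fin, nsmul_eq_mul]
      rw [this, h3]
    · refine one_le_sum (ι := Unit) _ (fun v => P v (true, u)) (fun v _ => (P_bounds v _).1)
        (fun _ => (false, u)) (fun _ _ _ => rfl)
        (fun _ => Finset.mem_filter.2 ⟨Finset.mem_univ _, rfl⟩) ?_
      simp [P]
  · intro n v hv
    refine lt_of_le_of_lt (P_cycle' n v hv) ?_
    have hk0 : (0 : ℝ) < k := by exact_mod_cast hk
    have h1 : ((k : ℝ) + 1) * (1 / (B : ℕ)) + 1 / k = 2 / k := by
      show ((k : ℝ) + 1) * (1 / ((k * (k + 1) : ℕ) : ℝ)) + 1 / k = 2 / k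
      push_cast
      field_simp
      ring
    rw [h1, div_lt_iff₀ hk0]
    rw [div_lt_iff₀ hε] at hm
    have h2 : (m : ℝ) ≤ k := by
      show (m : ℝ) ≤ ((m + 1 : ℕ) : ℝ)
      push_cast
      linarith
    nlinarith

end Pool.Agent.Results.MP_0959cd_co.SmallCycles
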